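import Pool.Agent.H.MP_ae5711_al.BG
import Pool.Agent.H.MP_9eb6b0_al.Ico

set_option autoImplicit false

namespace Pool.Agent.Results.MP_ae5711_al.Yes

open Pool.Agent.H.MP_ae5711_al Pool.Agent.H.MP_9eb6b0_al

/-- There is a group `G` that is amenable (finitely additive left-invariant probability on all
subsets), residually finite, all of whose finite-index subgroups are just-infinite, and that is not
elementary amenable: it is not in the smallest class containing finite and abelian groups and closed
under isomorphism, subgroups, quotients, extensions and directed unions. -/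
theorem result : ∃ (G : Type) (_ : Group G),
    (∃ μ : Set G → ℝ, (∀ A, 0 ≤ μ A) ∧ μ Set.univ = 1 ∧
      (∀ A B : Set G, Disjoint A B → μ (A ∪ B) = μ A + μ B) ∧
      ∀ (g : G) (A : Set G), μ ((fun x => g * x) '' A) = μ A) ∧
    (∀ g : G, g ≠ 1 → ∃ N : Subgroup G, N.Normal ∧ N.FiniteIndex ∧ g ∉ N) ∧
    (∀ U : Subgroup G, U.FiniteIndex →
      Infinite U ∧ ∀ M : Subgroup U, M.Normal → M ≠ ⊥ → M.FiniteIndex) ∧
    ¬ (∀ P : (H : Type) → [Group H] → Prop,
        (∀ (H : Type) [Group H] [Finite H], P H) →
        (∀ (H : Type) [CommGroup H], P H) →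
        (∀ (H K : Type) [Group H] [Group K], (H ≃* K) → P H → P K) →
        (∀ (H : Type) [Group H] (L : Subgroup H), P H → P L) →
        (∀ (H : Type) [Group H] (N : Subgroup H) [N.Normal], P H → P (H ⧸ N)) →
        (∀ (H : Type) [Group H] (N : Subgroup H) [N.Normal], P N → P (H ⧸ N) → P H) →
        (∀ (H : Type) [Group H] (ι : Type) (F : ι → Subgroup H),
          Directed (· ≤ ·) F → (∀ i, P (F i)) → (⨆ i, F i) = ⊤ → P H) →
        P G) := by
  obtain ⟨D⟩ := exists_dat
  letI : Fintype Ico := Fintype.ofFinite _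
  have hb := bad D ico_perf 0
  have hi := emb_inj (rr D) (rr_sep D)
  haveI := hb.2.1
  haveI : Infinite (HH (rr D)) := Infinite.of_injective _ hi
  refine ⟨HH (rr D), inferInstance, (am_HH _ (am_GG D)).set_mean, resfin _, fun U hU => ⟨?_,
    fun M => hji _ (GG_perf D ico_perf 0) (rr_surj D) U M⟩, fun h => ?_⟩
  · by_contra hc
    rw [not_infinite_iff_finite] at hc
    exact not_finite_iff_infinite.2 ‹Infinite (HH (rr D))› (Finite.of_subgroup_quotient U)
  · refine hb.not_good (Good.inj _ hi (h (fun H _ => Good H) (fun _ _ _ => good_finite)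
      (fun _ _ => good_comm mul_comm) (fun _ _ _ _ e => Good.surj e.toMonoidHom e.surjective)
      (fun _ _ L => Good.inj L.subtype Subtype.val_injective)
      (fun _ _ N _ => Good.surj _ (QuotientGroup.mk'_surjective N))
      (fun _ _ N _ => good_ext N) (fun _ _ ι F => good_union ι F)))

end Pool.Agent.Results.MP_ae5711_al.Yes
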